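import Pool.Agent.Helper98.RS.Defs

/-!
# RS4-U2: subgroups of `GL(2, 3)`
For a group `H` with a faithful representation of degree at most `2` over the field with three
elements, the second derived subgroup `A` satisfies: all squares of elements of `A` commute, and
all `x ∈ A` with `x ^ 2 = 1` commute.
-/

set_option autoImplicit false
set_option maxRecDepth 100000

open scoped commutatorElement

namespace Pool.Agent.Helper31.RS4

open Pool.Agent.Helper98.RS Matrix

/-- The homomorphism from `SL(2, 3)` to the additive group with three elements, in coordinates. -/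
def ph4 (a b c d : ZMod 3) : ZMod 3 := c * d + b * d + a * c - b * c * c * d

/-- The homomorphism from `SL(2, 3)` to the additive group with three elements. -/
def ph (A : Matrix (Fin 2) (Fin 2) (ZMod 3)) : ZMod 3 := ph4 (A 0 0) (A 0 1) (A 1 0) (A 1 1)

theorem ph_aux : ∀ a b c d : ZMod 3, a * d - b * c = 1 →
    ∀ a' b' c' d' : ZMod 3, a' * d' - b' * c' = 1 →
    ph4 (a * a' + b * c') (a * b' + b * d') (c * a' + d * c') (c * b' + d * d') =
      ph4 a b c d + ph4 a' b' c' d' := by
  decide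

theorem sq_aux : ∀ a b c d : ZMod 3, a * d - b * c = 1 → ph4 a b c d = 0 →
    (b = 0 ∧ c = 0 ∧ a = d) ∨
      (a * a + b * c = -1 ∧ a * b + b * d = 0 ∧ c * a + d * c = 0 ∧ c * b + d * d = -1) := by
  decide

theorem ph_mul (A B : Matrix (Fin 2) (Fin 2) (ZMod 3)) (hA : A.det = 1) (hB : B.det = 1) :
    ph (A * B) = ph A + ph B := by
  rw [Matrix.det_fin_two] at hA hB
  simp only [ph, Matrix.mul_apply, Fin.sum_univ_two]
  exact ph_aux _ _ _ _ hA _ _ _ _ hB

theorem ph_one : ph 1 = 0 := by decide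

/-- The dichotomy in the quaternion group: scalar, or square `-1`. -/
theorem q_cases (A : Matrix (Fin 2) (Fin 2) (ZMod 3)) (hA : A.det = 1) (hp : ph A = 0) :
    (∀ B : Matrix (Fin 2) (Fin 2) (ZMod 3), A * B = B * A) ∨ A * A = -1 := by
  rw [Matrix.det_fin_two] at hA
  rcases sq_aux (A 0 0) (A 0 1) (A 1 0) (A 1 1) hA hp with ⟨h1, h2, h3⟩ | ⟨h1, h2, h3, h4⟩
  · left
    intro B
    ext i j
    fin_cases i <;> fin_cases j <;>
      simp [Matrix.mul_apply, Fin.sum_univ_two, h1, h2, h3] <;> exact mul_comm _ _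
  · right
    ext i j
    fin_cases i <;> fin_cases j <;>
      simp [Matrix.mul_apply, Fin.sum_univ_two, h1, h2, h3, h4]

/-- The matrix form. -/
theorem main_mat {H : Type} [Group H] (M : H →* Matrix (Fin 2) (Fin 2) (ZMod 3))
    (hM : Function.Injective M) (A : Subgroup H)
    (hA : A ≤ ⁅⁅(⊤ : Subgroup H), (⊤ : Subgroup H)⁆, ⁅(⊤ : Subgroup H), (⊤ : Subgroup H)⁆⁆) :
    (∀ x ∈ A, ∀ y : H, x ^ 2 * y = y * x ^ 2) ∧
      (∀ x ∈ A, x ^ 2 = 1 → ∀ y : H, x * y = y * x) := by
  -- the kernel of the determinant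
  have hdet1 : ∀ h : H, (M h).det * (M h⁻¹).det = 1 := by
    intro h
    rw [← Matrix.det_mul, ← map_mul, mul_inv_cancel, map_one, Matrix.det_one]
  let K1 : Subgroup H :=
    { carrier := {h | (M h).det = 1}
      one_mem' := by simp
      mul_mem' := by
        intro a b ha hb
        simp only [Set.mem_setOf_eq] at ha hb ⊢
        rw [map_mul, Matrix.det_mul, ha, hb, one_mul]
      inv_mem' := by
        intro a ha
        simp only [Set.mem_setOf_eq] at ha ⊢
        have := hdet1 a
        rwa [ha, one_mul] at this }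
  have hK1 : ⁅(⊤ : Subgroup H), (⊤ : Subgroup H)⁆ ≤ K1 := by
    rw [Subgroup.commutator_le]
    intro g _ h _
    change (M ⁅g, h⁆).det = 1
    rw [commutatorElement_def, map_mul, map_mul, map_mul, Matrix.det_mul, Matrix.det_mul,
      Matrix.det_mul]
    have h1 := hdet1 g
    have h2 := hdet1 h
    calc (M g).det * (M h).det * (M g⁻¹).det * (M h⁻¹).det
        = ((M g).det * (M g⁻¹).det) * ((M h).det * (M h⁻¹).det) := by ring
      _ = 1 := by rw [h1, h2, one_mul]
  have hphinv : ∀ h ∈ K1, ph (M h) + ph (M h⁻¹) = 0 := by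
    intro h hh
    rw [← ph_mul _ _ hh (K1.inv_mem hh), ← map_mul, mul_inv_cancel, map_one, ph_one]
  let K2 : Subgroup H :=
    { carrier := {h | (M h).det = 1 ∧ ph (M h) = 0}
      one_mem' := by simp [ph_one]
      mul_mem' := by
        rintro a b ⟨ha, ha'⟩ ⟨hb, hb'⟩
        exact ⟨K1.mul_mem ha hb, by rw [map_mul, ph_mul _ _ ha hb, ha', hb', add_zero]⟩
      inv_mem' := by
        rintro a ⟨ha, ha'⟩
        have := hphinv a ha
        rw [ha', zero_add] at this
        exact ⟨K1.inv_mem ha, this⟩ }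
  have hK2 : A ≤ K2 := by
    refine hA.trans ?_
    rw [Subgroup.commutator_le]
    intro g hg h hh
    have hg1 := hK1 hg
    have hh1 := hK1 hh
    have hgh : ⁅g, h⁆ ∈ K1 := by
      rw [commutatorElement_def]
      exact K1.mul_mem (K1.mul_mem (K1.mul_mem hg1 hh1) (K1.inv_mem hg1)) (K1.inv_mem hh1)
    refine ⟨hgh, ?_⟩
    rw [commutatorElement_def, map_mul, map_mul, map_mul]
    have e1 : ph (M g * M h * M g⁻¹ * M h⁻¹) = ph (M g) + ph (M h) + ph (M g⁻¹) + ph (M h⁻¹) := by
      rw [ph_mul _ _ _ (K1.inv_mem hh1), ph_mul _ _ _ (K1.inv_mem hg1), ph_mul _ _ hg1 hh1]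
      · rw [← map_mul]; exact K1.mul_mem hg1 hh1
      · rw [← map_mul, ← map_mul]; exact K1.mul_mem (K1.mul_mem hg1 hh1) (K1.inv_mem hg1)
    rw [e1]
    have h1 := hphinv g hg1
    have h2 := hphinv h hh1
    calc ph (M g) + ph (M h) + ph (M g⁻¹) + ph (M h⁻¹)
        = (ph (M g) + ph (M g⁻¹)) + (ph (M h) + ph (M h⁻¹)) := by ring
      _ = 0 := by rw [h1, h2, add_zero]
  constructor
  · intro x hx y
    obtain ⟨h1, h2⟩ := hK2 hx
    apply hM
    rw [map_mul, map_mul, map_pow]
    rcases q_cases _ h1 h2 with h | h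
    · have := h (M y)
      rw [pow_two, mul_assoc, this, ← mul_assoc, this, mul_assoc]
    · rw [pow_two, h]; simp
  · intro x hx hx2 y
    obtain ⟨h1, h2⟩ := hK2 hx
    apply hM
    rw [map_mul, map_mul]
    rcases q_cases _ h1 h2 with h | h
    · exact h (M y)
    · exfalso
      have h3 : M x * M x = 1 := by rw [← map_mul, ← pow_two, hx2, map_one]
      rw [h3] at h
      have := congrFun (congrFun h 0) 0
      revert this
      decide

/-- The representation form. -/
theorem main_rep {H : Type} [Group H] {V : Type} [AddCommGroup V] [Module (ZMod 3) V]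
    [Finite V] (ρ : Representation (ZMod 3) H V) (hρ : Function.Injective ρ)
    (hd : Module.finrank (ZMod 3) V ≤ 2) (A : Subgroup H)
    (hA : A ≤ ⁅⁅(⊤ : Subgroup H), (⊤ : Subgroup H)⁆, ⁅(⊤ : Subgroup H), (⊤ : Subgroup H)⁆⁆) :
    (∀ x ∈ A, ∀ y : H, x ^ 2 * y = y * x ^ 2) ∧
      (∀ x ∈ A, x ^ 2 = 1 → ∀ y : H, x * y = y * x) := by
  classical
  haveI : Fact (Nat.Prime 3) := ⟨Nat.prime_three⟩
  haveI : Module.Finite (ZMod 3) V := Module.Finite.of_finite
  rcases Nat.lt_or_ge (Module.finrank (ZMod 3) V) 2 with hlt | hge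
  · -- degree at most one: commutative
    have hcomm : ∀ x y : H, x * y = y * x := by
      intro x y
      apply hρ
      have hle : Module.finrank (ZMod 3) V ≤ 1 := by omega
      obtain ⟨v, hv⟩ := finrank_le_one_iff.1 hle
      rw [map_mul, map_mul]
      ext w
      obtain ⟨c, rfl⟩ := hv w
      obtain ⟨a, ha⟩ := hv (ρ x v)
      obtain ⟨b, hb⟩ := hv (ρ y v)
      rw [Module.End.mul_apply, Module.End.mul_apply, map_smul, map_smul, map_smul, map_smul,
        ← ha, ← hb, map_smul, map_smul, ← ha, ← hb, smul_comm a b]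
    exact ⟨fun x _ y => hcomm _ _, fun x _ _ y => hcomm _ _⟩
  · have h2 : Module.finrank (ZMod 3) V = 2 := le_antisymm hd hge
    let b : Module.Basis (Fin 2) (ZMod 3) V := Module.finBasisOfFinrankEq (ZMod 3) V h2
    let M : H →* Matrix (Fin 2) (Fin 2) (ZMod 3) :=
      ((LinearMap.toMatrixAlgEquiv b).toRingEquiv.toMonoidHom : _ →* _).comp ρ
    have hM : Function.Injective M := by
      intro x y hxy
      apply hρ
      exact (LinearMap.toMatrixAlgEquiv b).injective hxy
    exact main_mat M hM A hA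

end Pool.Agent.Helper31.RS4
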